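import Pool.Agent.V1155.EndCE

set_option autoImplicit false

namespace Pool.Agent.Results.MP_10193a_al.EndCommutative

open Pool.Agent.V1155.EndCE

universe u

theorem result (A : Type u) [AddCommGroup A] (h1 : RightDistributive (AddMonoid.End A))
    (h2 : CentrallyEssential (AddMonoid.End A)) (f g : AddMonoid.End A) : f * g = g * f :=
  main h1 h2 f g

end Pool.Agent.Results.MP_10193a_al.EndCommutative
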